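import Pool.Agent.H13.WcsD

namespace Pool.Agent.Results.MP_a4c3d5_co.Small

open Pool.Agent.H13.Wcs

theorem result (k : ℕ) (σ : ℕ → ℕ) (h : IsWCS k σ) (m : ℕ) (hm : 0 < m) (hmk : 2 * m < k)
    (i : ℕ) (hi : i ∈ Set.Icc 1 k) (e : σ i = m) :
    i ∈ Set.Icc 1 m ∪ Set.Icc (k - m + 1) k := by
  rcases small_pos h hm (by omega) hi.1 hi.2 e with q | q
  · exact Or.inl ⟨hi.1, q⟩
  · exact Or.inr ⟨q, hi.2⟩

end Pool.Agent.Results.MP_a4c3d5_co.Small
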